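import Pool.Agent.helper53.AU.SpecG1

/-!
# au:OC - the largest normal subgroup of odd order
-/

namespace Pool.Agent.helper53.AU

open scoped Classical

lemma OC_sup (H : Type) [Group H] [Finite H] (N M : Subgroup H) (hN : N.Normal) (hM : M.Normal)
    (hNo : Odd (Nat.card N)) (hMo : Odd (Nat.card M)) : Odd (Nat.card (N ⊔ M : Subgroup H)) := by
  -- |N ⊔ M| = |N| * relIndex N (N ⊔ M), relIndex N (N ⊔ M) = relIndex N M, which divides |M|
  have := hN
  have h1 : N.relIndex (N ⊔ M) = N.relIndex M := Subgroup.relIndex_sup_left M N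
  have h2 : Nat.card N * N.relIndex (N ⊔ M) = Nat.card (N ⊔ M : Subgroup H) := by
    have := Subgroup.relIndex_mul_relIndex (⊥ : Subgroup H) N (N ⊔ M) bot_le le_sup_left
    rwa [Subgroup.relIndex_bot_left, Subgroup.relIndex_bot_left] at this
  have h3 : N.relIndex M ∣ Nat.card M := Subgroup.relIndex_dvd_card N M
  rw [← h2, h1]
  exact hNo.mul (Odd.of_dvd_nat hMo h3)

lemma OC_greatest (H : Type) [Group H] [Finite H] :
    ∃ N : Subgroup H, N.Normal ∧ Odd (Nat.card N) ∧
      ∀ M : Subgroup H, M.Normal → Odd (Nat.card M) → M ≤ N := by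
  have hfin : (Set.univ : Set (Subgroup H)).Finite := Set.toFinite _
  have hne : {N : Subgroup H | N.Normal ∧ Odd (Nat.card N)}.Nonempty :=
    ⟨⊥, Subgroup.normal_bot, by simp⟩
  obtain ⟨N, hN⟩ := (hfin.subset (Set.subset_univ
    {N : Subgroup H | N.Normal ∧ Odd (Nat.card N)})).exists_maximal hne
  refine ⟨N, hN.prop.1, hN.prop.2, ?_⟩
  intro M hM hMo
  have hs : (N ⊔ M) ∈ {N : Subgroup H | N.Normal ∧ Odd (Nat.card N)} := by
    have := hN.prop.1
    have := hM
    exact ⟨Subgroup.sup_normal N M, OC_sup H N M hN.prop.1 hM hN.prop.2 hMo⟩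
  have h := hN.le_of_ge hs le_sup_left
  exact le_trans le_sup_right h

lemma OC_isGreatest (H : Type) [Group H] [Finite H] :
    (oc H).Normal ∧ Odd (Nat.card (oc H)) ∧
      ∀ M : Subgroup H, M.Normal → Odd (Nat.card M) → M ≤ oc H := by
  obtain ⟨N, h1, h2, h3⟩ := OC_greatest H
  have h : oc H = N := by
    apply le_antisymm
    · apply sSup_le
      rintro M ⟨hM1, hM2⟩
      exact h3 M hM1 hM2
    · exact le_sSup ⟨h1, h2⟩
  rw [h]
  exact ⟨h1, h2, h3⟩

lemma OC_char (K : Type) [Group K] [Finite K] : (oc K).Characteristic := by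
  rw [Subgroup.characteristic_iff_map_le]
  intro φ
  obtain ⟨h1, h2, h3⟩ := OC_isGreatest K
  apply h3
  · exact h1.map φ.toMonoidHom φ.surjective
  · have hc : Nat.card ((oc K).map φ.toMonoidHom) = Nat.card (oc K) :=
      Nat.card_congr ((oc K).equivMapOfInjective φ.toMonoidHom φ.injective).symm.toEquiv
    rw [hc]
    exact h2

theorem OC : OC_stmt := by
  intro H _ _
  obtain ⟨h1, h2, h3⟩ := OC_isGreatest H
  refine ⟨h1, h2, h3, ?_⟩
  intro K hK
  apply h3
  · have := hK
    have := OC_char K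
    exact ConjAct.normal_of_characteristic_of_normal
  · have hc : Nat.card ((oc K).map K.subtype) = Nat.card (oc K) :=
      Nat.card_congr ((oc K).equivMapOfInjective K.subtype K.subtype_injective).symm.toEquiv
    rw [hc]
    exact (OC_isGreatest K).2.1

end Pool.Agent.helper53.AU

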