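import Pool.Agent.helper87.AU.SpecQ1

/-!
# au:QD2 - a local generator
-/

namespace Pool.Agent.helper53.AU

open scoped Classical IntermediateField
open Polynomial (aeval)

noncomputable section

theorem QD2 (hV0 : QV0_stmt) (hV4 : QV4_stmt) (hR4 : QR4_stmt) : QD2_stmt := by
  intro k F _ _ _ _ hF P₀ x hx hxt a
  have hne : x - algebraMap k F a ≠ 0 := by
    intro h
    have h1 : x = algebraMap k F a := sub_eq_zero.1 h
    rw [h1] at hxt
    exact hxt (isAlgebraic_algebraMap a)
  have hfin : {P : Place k F | 0 < P.ord (x - algebraMap k F a)}.Finite := by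
    apply (hV4 k F hF _ hne).subset
    intro P hP
    rw [Function.mem_support]
    exact ne_of_gt hP
  have hP₀ : ¬ 0 < P₀.ord (x - algebraMap k F a) := by
    intro h
    obtain ⟨c, hc⟩ := hV0 k F hF (x - algebraMap k F a) (by
      intro P
      by_cases hP : P = P₀
      · subst hP
        exact Or.inr h.le
      · exact (hx P hP).sub (P.ge_const a))
    have h1 : x = algebraMap k F (c + a) := by
      rw [map_add, ← hc]
      ring
    rw [h1] at hxt
    exact hxt (isAlgebraic_algebraMap _)
  have hinf : Infinite k := IsAlgClosed.instInfinite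
  obtain ⟨e⟩ : Nonempty ({P : Place k F | 0 < P.ord (x - algebraMap k F a)} ↪ k) := by
    have : Finite {P : Place k F | 0 < P.ord (x - algebraMap k F a)} := hfin
    have : Fintype {P : Place k F | 0 < P.ord (x - algebraMap k F a)} := Fintype.ofFinite _
    exact ⟨(Fintype.equivFin _).toEmbedding.trans
      (Fin.valEmbedding.trans (Infinite.natEmbedding k))⟩
  set c : Place k F → k := fun P =>
    if h : 0 < P.ord (x - algebraMap k F a) then e ⟨P, h⟩ else 0 with hc
  obtain ⟨α, hα, happ⟩ := hR4 k F hF P₀ hfin.toFinset 2
    (fun P => algebraMap k F (c P) + P.unif) (by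
      rw [Set.Finite.mem_toFinset]
      exact hP₀) (by
      intro P _
      exact (P.ge_const _).add (Or.inr (by rw [P.unif_spec.2]; norm_num)))
  refine ⟨α, hα, c, ?_, ?_⟩
  · intro P hP
    have h1 := happ P (by rw [Set.Finite.mem_toFinset]; exact hP)
    have h2 : α - algebraMap k F (c P) =
        P.unif + (α - (algebraMap k F (c P) + P.unif)) := by ring
    have h3 := Place.ord_add_eq (P := P) (f := P.unif)
      (g := α - (algebraMap k F (c P) + P.unif)) P.unif_spec.1 (by
        rw [P.unif_spec.2]
        exact h1.mono (by norm_num))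
    rw [h2]
    refine ⟨h3.1, ?_⟩
    rw [h3.2, P.unif_spec.2]
  · intro P P' hP hP' h
    rw [hc] at h
    simp only [hP, hP', dif_pos] at h
    have := e.injective h
    exact congrArg Subtype.val this

end

end Pool.Agent.helper53.AU

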