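import Pool.Agent.helper87.AU.SpecQ2

/-!
# au:QE1 - the fixed field of a finite group is a function field
-/

namespace Pool.Agent.helper53.AU

open scoped Classical IntermediateField
open IntermediateField (fixedField)

noncomputable section

lemma QE1_fin {k F : Type} [Field k] [Field F] [Algebra k F] (H : Subgroup (F ≃ₐ[k] F))
    (hH : Finite H) : FiniteDimensional (fixedField H) F ∧
      Module.finrank (fixedField H) F = Nat.card H := by
  have := Fintype.ofFinite H
  have h1 : FiniteDimensional (FixedPoints.subfield H F) F := inferInstance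
  have h2 : Module.finrank (FixedPoints.subfield H F) F = Fintype.card H :=
    FixedPoints.finrank_eq_card H F
  rw [Nat.card_eq_fintype_card]
  exact ⟨h1, h2⟩

theorem QE1 (hL0 : QL0_stmt) : QE1_stmt := by
  intro k F _ _ _ _ hF H hH
  obtain ⟨hfin, hrank⟩ := QE1_fin H hH
  refine ⟨?_, hfin, hrank⟩
  -- a transcendental element of the fixed field
  obtain ⟨x, hx, _⟩ := id hF
  have hex : ∃ y : fixedField H, Transcendental k y := by
    by_contra hcon
    have halg : Algebra.IsAlgebraic k (fixedField H) := by
      refine ⟨fun y => ?_⟩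
      by_contra hy
      exact hcon ⟨y, hy⟩
    have h2 : Algebra.IsAlgebraic (fixedField H) F := inferInstance
    have h3 : Algebra.IsAlgebraic k F := Algebra.IsAlgebraic.trans k (fixedField H) F
    exact hx (h3.isAlgebraic x)
  obtain ⟨y, hy⟩ := hex
  have hyF : Transcendental k (y : F) := by
    intro h
    apply hy
    exact (isAlgebraic_algebraMap_iff (algebraMap (fixedField H) F).injective).1 h
  refine ⟨y, hy, ?_⟩
  have h4 : FiniteDimensional k⟮(y : F)⟯ F := hL0 k F hF (y : F) hyF
  have h5 : IntermediateField.lift k⟮y⟯ = k⟮(y : F)⟯ :=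
    IntermediateField.lift_adjoin_simple k (fixedField H) y
  have h6 : FiniteDimensional (IntermediateField.lift k⟮y⟯) F := by
    rw [h5]
    exact h4
  have h7 : FiniteDimensional k⟮y⟯ F := by
    refine Module.Finite.of_equiv_equiv
      (IntermediateField.liftAlgEquiv k⟮y⟯).symm.toRingEquiv (RingEquiv.refl F) ?_
    ext z
    obtain ⟨w, rfl⟩ := (IntermediateField.liftAlgEquiv k⟮y⟯).surjective z
    simp
    rfl
  exact FiniteDimensional.left k⟮y⟯ (fixedField H) F

end

end Pool.Agent.helper53.AU

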