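import Pool.Agent.helper87.AU.SpecQ2

/-!
# au:QF6 - the field `lead` of `Ram`
-/

namespace Pool.Agent.helper53.AU

open scoped Classical IntermediateField
open IntermediateField (fixedField)

noncomputable section

theorem QF6 (hF3 : QF3_stmt) (hF4 : QF4_stmt) (hF5 : QF5_stmt) : QF6_stmt := by
  intro k F _ _ _ _ hF P c s hc hs hs1 hj
  obtain ⟨-, hconj, hinv, -⟩ := hF3 k F hF P
  obtain ⟨hadd, hlead⟩ := hF5 k F hF P
  have hs' : s⁻¹ • P = P := by
    rw [inv_smul_eq_iff, hs]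
  have hs1' : s⁻¹ ≠ 1 := by simpa using hs1
  have hjinv : P.jump s⁻¹ = P.jump s := hinv s hs
  have hl0 : P.lcoef s ≠ 0 := (hF4 k F hF P s hs hs1 hj).1
  -- the leading coefficient of the inverse
  have hlinv : P.lcoef s + P.lcoef s⁻¹ = 0 := by
    by_contra h
    have := (hadd s s⁻¹ hs hs' hs1 hs1' hj hjinv).2 h
    exact this.1 (mul_inv_cancel s)
  have hlinv' : P.lcoef s⁻¹ = - P.lcoef s := by
    rw [eq_neg_iff_add_eq_zero, add_comm]
    exact hlinv
  -- the conjugate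
  have hcinv : c⁻¹ • P = P := by
    rw [inv_smul_eq_iff, hc]
  have hcs : (c * s * c⁻¹) • P = P := by
    rw [mul_smul, mul_smul, hcinv, hs, hc]
  have hcs1 : c * s * c⁻¹ ≠ 1 := by
    intro h
    apply hs1
    have : s = c⁻¹ * (c * s * c⁻¹) * c := by group
    rw [this, h]
    group
  have hjc : P.jump (c * s * c⁻¹) = P.jump s := by
    have := (hconj c s hs).2
    rwa [hc] at this
  have hlc : P.lcoef (c * s * c⁻¹) = P.theta c ^ (P.jump s) * P.lcoef s :=
    hlead c s hc hs hs1 hj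
  obtain ⟨hA, hB⟩ := hadd (c * s * c⁻¹) s⁻¹ hcs hs' hcs1 hs1' (by rw [hjc]; exact hj)
    (by rw [hjinv, hjc])
  have hsum : P.lcoef (c * s * c⁻¹) + P.lcoef s⁻¹ =
      (P.theta c ^ (P.jump s) - 1) * P.lcoef s := by
    rw [hlc, hlinv']
    ring
  constructor
  · intro h
    have h0 : P.lcoef (c * s * c⁻¹) + P.lcoef s⁻¹ = 0 := by
      rw [hsum, h, sub_self, zero_mul]
    have := hA h0
    rwa [hjc] at this
  · intro h
    by_contra hne
    have h0 : P.lcoef (c * s * c⁻¹) + P.lcoef s⁻¹ ≠ 0 := by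
      rw [hsum]
      exact mul_ne_zero (sub_ne_zero.2 hne) hl0
    obtain ⟨h1, h2, -⟩ := hB h0
    rcases h with h | h
    · exact h1 h
    · rw [h2, hjc] at h
      exact lt_irrefl _ h

end

end Pool.Agent.helper53.AU

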