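import Pool.Agent.helper87.AU.SpecQ1

/-!
# au:QK0 - a separating element exists
-/

namespace Pool.Agent.helper53.AU

open scoped Classical IntermediateField
open Polynomial (aeval)

noncomputable section

theorem QK0 (h : QL0_stmt) : QK0_stmt := by
  intro k F _ _ _ _ hF
  obtain ⟨x, hx, hfin⟩ := id hF
  have h1 : Algebra.EssFiniteType k k⟮x⟯ := by
    rw [IntermediateField.essFiniteType_iff]
    exact ⟨{x}, by simp⟩
  have h2 : Algebra.EssFiniteType k⟮x⟯ F := inferInstance
  have h3 : Algebra.EssFiniteType k F := Algebra.EssFiniteType.comp k k⟮x⟯ F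
  obtain ⟨s, hs, hsep⟩ := exists_isTranscendenceBasis_and_isSeparable_of_perfectField k F
  have hcard : Cardinal.mk s = Algebra.trdeg k F := hs.cardinalMk_eq_trdeg
  have halg : Algebra.IsAlgebraic (Algebra.adjoin k ({x} : Set F)) F := by
    rw [← IntermediateField.isAlgebraic_adjoin_iff_top]
    infer_instance
  have hle : Algebra.trdeg k F ≤ 1 := by
    have := Algebra.IsAlgebraic.trdeg_le_cardinalMk (R := k) (A := F) (s := ({x} : Set F))
    simpa using this
  have hge : 1 ≤ Algebra.trdeg k F := by
    have h4 : AlgebraicIndependent k (fun _ : Unit => x) := by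
      rw [algebraicIndependent_unique_type_iff]
      exact hx
    have := h4.cardinalMk_le_trdeg
    simpa using this
  have h5 : Cardinal.mk s = 1 := by
    rw [hcard]
    exact le_antisymm hle hge
  have h6 : s.card = 1 := by
    rw [Cardinal.mk_coe_finset] at h5
    exact_mod_cast h5
  obtain ⟨y, rfl⟩ := Finset.card_eq_one.1 h6
  have hy : Transcendental k y := by
    have h7 := hs.1
    have h8 : AlgebraicIndependent k (fun _ : Unit => y) := by
      have := h7.comp (fun _ : Unit => (⟨y, by simp⟩ : ({y} : Finset F)))
        (fun _ _ _ => Subsingleton.elim _ _)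
      exact this
    rwa [algebraicIndependent_unique_type_iff] at h8
  refine ⟨y, hy, h k F hF y hy, ?_⟩
  have e : ((({y} : Finset F) : Finset F) : Set F) = {y} := by simp
  rw [e] at hsep
  exact hsep

end

end Pool.Agent.helper53.AU

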