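import Pool.Agent.helper53.AU.SpecG2

/-!
# au:SY - Sylow subgroups of members of PL
-/

namespace Pool.Agent.helper53.AU

open scoped Classical

/-- an element of `3`-power order whose order is coprime to `3` is trivial -/
lemma SY_coprime {L : Type} [Group L] (x : L) (m n : ℕ) (hm : ¬ 3 ∣ m) (h1 : x ^ m = 1)
    (h2 : x ^ (3 ^ n) = 1) : x = 1 := by
  have hc : Nat.Coprime m (3 ^ n) := by
    apply Nat.Coprime.pow_right
    exact ((Nat.Prime.coprime_iff_not_dvd Nat.prime_three).2 hm).symm
  have h3 : orderOf x ∣ Nat.gcd m (3 ^ n) :=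
    Nat.dvd_gcd (orderOf_dvd_of_pow_eq_one h1) (orderOf_dvd_of_pow_eq_one h2)
  rw [hc] at h3
  exact orderOf_eq_one_iff.1 (Nat.dvd_one.1 h3)

/-- the quotient of a `ThreeCyc` subgroup: for `x, y ∈ H` the commutator lies in `P` -/
lemma SY_hom {L : Type} [Group L] (H : Subgroup L) (h : ThreeCyc H) :
    ∃ (Q : Type) (_ : Group Q) (f : H →* Q), IsCyclic Q ∧
      ∀ x : H, f x = 1 → ∃ n : ℕ, x ^ (3 ^ n) = 1 := by
  obtain ⟨P, c, hPH, hcH, hP, hnorm, hc, hgen⟩ := h
  have hN : (P.subgroupOf H).Normal := by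
    refine ⟨?_⟩
    intro p hp x
    rw [Subgroup.mem_subgroupOf] at hp ⊢
    exact hnorm x x.2 p hp
  refine ⟨H ⧸ P.subgroupOf H, inferInstance, QuotientGroup.mk' _, ?_, ?_⟩
  · refine ⟨QuotientGroup.mk' (P.subgroupOf H) ⟨c, hcH⟩, ?_⟩
    intro q
    obtain ⟨x, rfl⟩ := QuotientGroup.mk'_surjective (P.subgroupOf H) q
    obtain ⟨p, hp, n, hx⟩ := hgen x x.2
    refine ⟨(n : ℤ), ?_⟩
    change QuotientGroup.mk' (P.subgroupOf H) ⟨c, hcH⟩ ^ (n : ℤ) = _
    have hx' : x = ⟨p, hPH hp⟩ * ⟨c, hcH⟩ ^ n := by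
      apply Subtype.ext
      simpa using hx
    have hp1 : QuotientGroup.mk' (P.subgroupOf H) ⟨p, hPH hp⟩ = 1 := by
      rw [QuotientGroup.mk'_apply, QuotientGroup.eq_one_iff, Subgroup.mem_subgroupOf]
      exact hp
    rw [hx', map_mul, hp1, one_mul, map_pow, zpow_natCast]
  · intro x hx
    rw [QuotientGroup.mk'_apply, QuotientGroup.eq_one_iff, Subgroup.mem_subgroupOf] at hx
    obtain ⟨n, hn⟩ := hP ⟨x, hx⟩
    refine ⟨n, ?_⟩
    apply Subtype.ext
    have := congrArg Subtype.val hn
    simpa using this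

lemma SY_two {L : Type} [Group L] (H : Subgroup L) (h : ThreeCyc H) (x g : L) (hx : x ∈ H)
    (hg : g ∈ H) (hp : (orderOf x).Prime) (h3 : orderOf x ≠ 3)
    (hn : g * x * g⁻¹ ∈ Subgroup.zpowers x) : g * x = x * g := by
  obtain ⟨Q, _, f, hQ, hf⟩ := SY_hom H h
  have hcomm : ∀ a b : Q, a * b = b * a := by
    intro a b
    exact (IsCyclic.commGroup (α := Q)).mul_comm a b
  set X : H := ⟨x, hx⟩ with hX
  set G : H := ⟨g, hg⟩ with hG
  have h1 : f (G * X * G⁻¹ * X⁻¹) = 1 := by
    rw [map_mul, map_mul, map_mul, map_inv, map_inv, hcomm (f G) (f X), mul_inv_cancel_right,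
      mul_inv_cancel]
  obtain ⟨n, hn'⟩ := hf _ h1
  have h2 : (g * x * g⁻¹ * x⁻¹) ^ (3 ^ n) = 1 := by
    have := congrArg Subtype.val hn'
    simpa [hX, hG] using this
  have h4 : g * x * g⁻¹ * x⁻¹ ∈ Subgroup.zpowers x :=
    mul_mem hn (inv_mem (Subgroup.mem_zpowers x))
  have h5 : (g * x * g⁻¹ * x⁻¹) ^ (orderOf x) = 1 := by
    obtain ⟨k, hk⟩ := Subgroup.mem_zpowers_iff.1 h4
    rw [← hk, ← zpow_natCast, ← zpow_mul, mul_comm, zpow_mul, zpow_natCast, pow_orderOf_eq_one,
      one_zpow]
  have h6 : ¬ 3 ∣ orderOf x := by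
    intro hd
    exact h3 ((Nat.prime_dvd_prime_iff_eq Nat.prime_three hp).1 hd).symm
  have h7 := SY_coprime _ _ n h6 h5 h2
  have h8 : g * x * g⁻¹ = x := mul_inv_eq_one.1 h7
  exact mul_inv_eq_iff_eq_mul.1 h8

lemma SY_cyc_of_le {L : Type} [Group L] (H S : Subgroup L) (h : ThreeCyc H) (hS : S ≤ H) (r : ℕ)
    (hr : r.Prime) (hr3 : r ≠ 3) (hpS : IsPGroup r S) : IsCyclic S := by
  obtain ⟨Q, _, f, hQ, hf⟩ := SY_hom H h
  have hinj : Function.Injective (f.comp (Subgroup.inclusion hS)) := by
    rw [injective_iff_map_eq_one]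
    intro s hs
    obtain ⟨n, hn⟩ := hf _ hs
    obtain ⟨m, hm⟩ := hpS s
    have hn' : s ^ (3 ^ n) = 1 := by
      apply Subgroup.inclusion_injective hS
      rw [map_pow, map_one]
      exact hn
    apply SY_coprime s (r ^ m) n _ hm hn'
    intro hd
    have := Nat.prime_three.dvd_of_dvd_pow hd
    exact hr3 ((Nat.prime_dvd_prime_iff_eq Nat.prime_three hr).1 this).symm
  exact isCyclic_of_injective _ hinj

theorem SY : SY_stmt := by
  intro L Ω _ _ A hPL
  have := hPL.finL
  have := hPL.finΩ
  have := hPL.trans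
  have := hPL.nonempty
  refine ⟨?_, ?_⟩
  · intro r hr5 hr S
    have hrp : r.Prime := hr.out
    by_cases hd : r ∣ Nat.card Ω
    · -- the Sylow subgroup of `A`
      have hA : r ∣ Nat.card A := by
        rw [← hPL.cardA] at hd
        rcases (Nat.Prime.dvd_mul hrp).1 hd with h | h
        · exact absurd (Nat.le_of_dvd (by norm_num) h) (by omega)
        · exact h
      obtain ⟨α⟩ := hPL.nonempty
      have hcard : Nat.card Ω * Nat.card (MulAction.stabilizer L α) = Nat.card L := by
        have h1 := MulAction.index_stabilizer_of_transitive L α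
        rw [← h1, mul_comm]
        exact Subgroup.card_mul_index _
      have hnd : ¬ r ∣ Nat.card (MulAction.stabilizer L α) := by
        intro h
        have := Nat.dvd_gcd h hd
        rw [hPL.copr α] at this
        exact hrp.one_lt.ne' (Nat.dvd_one.1 this)
      have hfac : (Nat.card L).factorization r = (Nat.card A).factorization r := by
        rw [← hcard, ← hPL.cardA]
        have hA0 : Nat.card A ≠ 0 := Nat.card_pos.ne'
        have hS0 : Nat.card (MulAction.stabilizer L α) ≠ 0 := Nat.card_pos.ne'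
        rw [Nat.factorization_mul (by positivity) hS0, Nat.factorization_mul (by norm_num) hA0]
        simp only [Finsupp.add_apply]
        rw [Nat.factorization_eq_zero_of_not_dvd hnd]
        have h2 : (2 : ℕ).factorization r = 0 := by
          apply Nat.factorization_eq_zero_of_not_dvd
          intro h
          exact absurd (Nat.le_of_dvd (by norm_num) h) (by omega)
        rw [h2]
        omega
      let T : Sylow r A := default
      have hT : Nat.card T = r ^ (Nat.card A).factorization r := Sylow.card_eq_multiplicity T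
      let T' : Subgroup L := (T : Subgroup A).map A.subtype
      have hT' : Nat.card T' = r ^ (Nat.card L).factorization r := by
        rw [hfac, ← hT]
        exact Nat.card_congr ((T : Subgroup A).equivMapOfInjective A.subtype
          A.subtype_injective).symm.toEquiv
      let T'' : Sylow r L := Sylow.ofCard T' hT'
      have hcyc : IsCyclic T'' := by
        have := hPL.cyc
        have h1 : IsCyclic (T : Subgroup A) := inferInstance
        have e : (T : Subgroup A) ≃* T' := (T : Subgroup A).equivMapOfInjective A.subtype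
          A.subtype_injective
        exact isCyclic_of_surjective e e.surjective
      have e : T'' ≃* S := Sylow.equiv T'' S
      exact isCyclic_of_surjective e e.surjective
    · have hfix : (MulAction.fixedPoints S Ω).Nonempty :=
        S.isPGroup'.nonempty_fixed_point_of_prime_not_dvd_card Ω hd
      obtain ⟨α, hα⟩ := hfix
      have hS : (S : Subgroup L) ≤ MulAction.stabilizer L α := by
        intro s hs
        rw [MulAction.mem_stabilizer_iff]
        exact hα ⟨s, hs⟩
      exact SY_cyc_of_le _ _ (hPL.stab α) hS r hrp (by omega) S.isPGroup'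
  · intro α x g hx hg hp h3 hn
    exact SY_two _ (hPL.stab α) x g hx hg hp h3 hn

end Pool.Agent.helper53.AU

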